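import Mathlib

/-!
Every finitely generated integral domain has a d-Sigma-2 Scott sentence.

Let `A` be generated by the tuple `a`.  If a tuple `x` of `A` satisfies all universal formulas
(with one quantified variable) true of `a`, then `a ↦ x` extends to an injective endomorphism `f`
of `A`.  Transcendence degree over the prime ring shows that `A` is algebraic over the image of `f`;
a polynomial of least degree over the image with a given root `y` has, by the hypothesis on `x`,
a root in the image, so it is divisible by a linear polynomial over the image and `y` lies in the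
image.  So `x` generates `A`.  This gives the sentence.
-/

set_option autoImplicit false

open FirstOrder FirstOrder.Language

universe u

namespace Pool.Agent.Results.MP_93e0ce_lc.DomainScottSentence

/-- Formulas of the infinitary logic with countable conjunctions and disjunctions and finite
strings of quantifiers, in the language `L`, with free variables `x_0, ..., x_(n-1)`.
`fo` includes the finitary first-order formulas; `all m` and `ex m` quantify the last `m` of the
variables. -/
inductive Inf (L : FirstOrder.Language.{0, 0}) : ℕ → Type 1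
  | fo {n : ℕ} (φ : L.Formula (Fin n)) : Inf L n
  | neg {n : ℕ} (φ : Inf L n) : Inf L n
  | conj {n : ℕ} (ι : Type) [Countable ι] (φ : ι → Inf L n) : Inf L n
  | disj {n : ℕ} (ι : Type) [Countable ι] (φ : ι → Inf L n) : Inf L n
  | all {n : ℕ} (m : ℕ) (φ : Inf L (n + m)) : Inf L n
  | ex {n : ℕ} (m : ℕ) (φ : Inf L (n + m)) : Inf L n

/-- Truth of an infinitary formula in the structure `M` under the assignment `v`. -/
def Inf.Holds {L : FirstOrder.Language.{0, 0}} (M : Type u) [L.Structure M] :
    {n : ℕ} → Inf L n → (Fin n → M) → Prop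
  | _, .fo φ, v => φ.Realize v
  | _, .neg φ, v => ¬ φ.Holds M v
  | _, @Inf.conj _ _ _ _ φ, v => ∀ i, (φ i).Holds M v
  | _, @Inf.disj _ _ _ _ φ, v => ∃ i, (φ i).Holds M v
  | _, .all m φ, v => ∀ w : Fin m → M, φ.Holds M (Fin.append v w)
  | _, .ex m φ, v => ∃ w : Fin m → M, φ.Holds M (Fin.append v w)

mutual

/-- The class `Sigma_k`: for `k = 0` the finitary quantifier-free formulas, for `k > 0` the
countable disjunctions of formulas `∃ x̄ ψ` with each `ψ` in `Pi_j` for some `j < k`. -/
inductive IsSigma {L : FirstOrder.Language.{0, 0}} : (k n : ℕ) → Inf L n → Prop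
  | qf {n : ℕ} (φ : L.Formula (Fin n)) (h : BoundedFormula.IsQF φ) : IsSigma 0 n (.fo φ)
  | disj {k n : ℕ} (hk : 0 < k) (ι : Type) [Countable ι] (m j : ι → ℕ) (hj : ∀ i, j i < k)
      (ψ : (i : ι) → Inf L (n + m i)) (h : ∀ i, IsPi (j i) (n + m i) (ψ i)) :
      IsSigma k n (.disj ι fun i => .ex (m i) (ψ i))

/-- The class `Pi_k`: for `k = 0` the finitary quantifier-free formulas, for `k > 0` the
countable conjunctions of formulas `∀ x̄ ψ` with each `ψ` in `Sigma_j` for some `j < k`. -/
inductive IsPi {L : FirstOrder.Language.{0, 0}} : (k n : ℕ) → Inf L n → Prop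
  | qf {n : ℕ} (φ : L.Formula (Fin n)) (h : BoundedFormula.IsQF φ) : IsPi 0 n (.fo φ)
  | conj {k n : ℕ} (hk : 0 < k) (ι : Type) [Countable ι] (m j : ι → ℕ) (hj : ∀ i, j i < k)
      (ψ : (i : ι) → Inf L (n + m i)) (h : ∀ i, IsSigma (j i) (n + m i) (ψ i)) :
      IsPi k n (.conj ι fun i => .all (m i) (ψ i))

end

/-- A d-`Sigma_k` formula: the conjunction of a `Sigma_k` formula and a `Pi_k` formula. -/
def IsDSigma {L : FirstOrder.Language.{0, 0}} (k : ℕ) {n : ℕ} (φ : Inf L n) : Prop :=
  ∃ σ π : Inf L n, IsSigma k n σ ∧ IsPi k n π ∧ φ = .conj Bool fun b => bif b then σ else π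

/-- `φ` is a Scott sentence of `A`: its countable models are exactly the structures isomorphic
to `A`. -/
def IsScottSentence {L : FirstOrder.Language.{0, 0}} (A : Type u) [L.Structure A] (φ : Inf L 0) : Prop :=
  ∀ (M : Type u) [L.Structure M] [Countable M],
    φ.Holds M (fun i => i.elim0) ↔ Nonempty (M ≃[L] A)

section general

variable {L : FirstOrder.Language.{0, 0}}

/-- Truth is invariant under isomorphism. -/
theorem holds_iff_of_equiv {M A : Type u} [L.Structure M] [L.Structure A] (e : M ≃[L] A) :
    ∀ {n : ℕ} (φ : Inf L n) (v : Fin n → M), φ.Holds M v ↔ φ.Holds A (e ∘ v) := by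
  have happ : ∀ {n m : ℕ} (v : Fin n → M) (w : Fin m → M),
      Fin.append (e ∘ v) (e ∘ w) = e ∘ Fin.append v w := by
    intro n m v w
    funext i
    refine Fin.addCases (fun i => ?_) (fun i => ?_) i <;> simp
  intro n φ
  induction φ with
  | fo φ => intro v; exact (StrongHomClass.realize_formula e φ).symm
  | neg φ ih => intro v; simp only [Inf.Holds]; rw [ih]
  | conj ι φ ih => intro v; simp only [Inf.Holds]; exact forall_congr' fun i => ih i v
  | disj ι φ ih => intro v; simp only [Inf.Holds]; exact exists_congr fun i => ih i v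
  | all m φ ih =>
    intro v
    simp only [Inf.Holds]
    constructor
    · intro h w
      have h1 := (ih (Fin.append v (e.symm ∘ w))).1 (h _)
      rw [← happ] at h1
      have : e ∘ (e.symm ∘ w) = w := by funext i; simp
      rwa [this] at h1
    · intro h w
      rw [ih, ← happ]
      exact h _
  | ex m φ ih =>
    intro v
    simp only [Inf.Holds]
    constructor
    · rintro ⟨w, h⟩
      refine ⟨e ∘ w, ?_⟩
      rw [happ, ← ih]
      exact h
    · rintro ⟨w, h⟩
      refine ⟨e.symm ∘ w, ?_⟩
      rw [ih, ← happ]
      have : e ∘ (e.symm ∘ w) = w := by funext i; simp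
      rwa [this]

variable {K : ℕ} {A : Type u} [L.Structure A]

/-- The quantifier-free formulas in `K + 1` variables true of `a` and every further element. -/
def Univ (a : Fin K → A) : Type :=
  {φ : L.Formula (Fin (K + 1)) //
    BoundedFormula.IsQF φ ∧ ∀ w : Fin 1 → A, φ.Realize (Fin.append a w)}

instance [Countable L.Symbols] (a : Fin K → A) : Countable (Univ (L := L) a) := by
  unfold Univ
  infer_instance

/-- the universal type of `a` -/
def psi [Countable L.Symbols] (a : Fin K → A) : Inf L K :=
  .conj (Univ (L := L) a) fun φ => .all 1 (.fo φ.1)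

theorem isPi_psi [Countable L.Symbols] (a : Fin K → A) : IsPi 1 K (psi (L := L) a) :=
  .conj one_pos (Univ (L := L) a) (fun _ => 1) (fun _ => 0) (fun _ => one_pos)
    (fun φ => .fo φ.1) (fun φ => .qf φ.1 φ.2.1)

/-- skip the variable number `K` -/
def skip (K : ℕ) : Fin (K + 1) → Fin (K + 1 + 1) :=
  Fin.append (fun i : Fin K => i.castSucc.castSucc) (fun _ : Fin 1 => Fin.last (K + 1))

/-- the disjuncts of the second sentence -/
def chiBody (a : Fin K → A) : Univ (L := L) a ⊕ L.Term (Fin K) → L.Formula (Fin (K + 1 + 1))
  | .inl φ => (Formula.relabel (skip K) φ.1).not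
  | .inr t => Term.equal (Term.var (Fin.last K).castSucc)
      (t.relabel fun i => i.castSucc.castSucc)

theorem chiBody_isQF (a : Fin K → A) (i : Univ (L := L) a ⊕ L.Term (Fin K)) :
    BoundedFormula.IsQF (chiBody a i) := by
  rcases i with φ | t
  · exact (φ.2.1.relabel _).not
  · exact BoundedFormula.IsQF.of_isAtomic (.equal _ _)

/-- the body of the second sentence -/
def chi [Countable L.Symbols] (a : Fin K → A) : Inf L (K + 1) :=
  .disj (Univ (L := L) a ⊕ L.Term (Fin K)) fun i => .ex 1 (.fo (chiBody a i))

theorem isSigma_chi [Countable L.Symbols] (a : Fin K → A) : IsSigma 1 (K + 1) (chi (L := L) a) :=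
  .disj one_pos (Univ (L := L) a ⊕ L.Term (Fin K)) (fun _ => 1) (fun _ => 0)
    (fun _ => one_pos) (fun i => .fo (chiBody a i))
    (fun i => .qf _ (chiBody_isQF a i))

theorem holds_psi [Countable L.Symbols] (a : Fin K → A) {M : Type u} [L.Structure M]
    (x : Fin K → M) :
    (psi (L := L) a).Holds M x ↔
      ∀ φ : Univ (L := L) a, ∀ w : Fin 1 → M, φ.1.Realize (Fin.append x w) := Iff.rfl


theorem append_castSucc {M : Type u} (x : Fin K → M) (y : M) (w : Fin 1 → M) (i : Fin K) :
    Fin.append (Fin.snoc (α := fun _ => M) x y) w i.castSucc.castSucc = x i := by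
  have h := Fin.append_left (Fin.snoc (α := fun _ => M) x y) w i.castSucc
  rw [Fin.snoc_castSucc] at h
  exact h

theorem append_mid {M : Type u} (x : Fin K → M) (y : M) (w : Fin 1 → M) :
    Fin.append (Fin.snoc (α := fun _ => M) x y) w (Fin.last K).castSucc = y := by
  have h := Fin.append_left (Fin.snoc (α := fun _ => M) x y) w (Fin.last K)
  rw [Fin.snoc_last] at h
  exact h

theorem append_last {n : ℕ} {M : Type u} (x : Fin n → M) (w : Fin 1 → M) :
    Fin.append x w (Fin.last n) = w 0 :=
  Fin.append_right x w 0

theorem append_skip {M : Type u} (x : Fin K → M) (y : M) (w : Fin 1 → M) :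
    Fin.append (Fin.snoc (α := fun _ => M) x y) w ∘ skip K = Fin.append x w := by
  funext i
  refine Fin.addCases (fun i => ?_) (fun i => ?_) i
  · rw [Function.comp, skip, Fin.append_left, Fin.append_left, append_castSucc]
  · rw [Function.comp, skip, Fin.append_right, Fin.append_right, append_last]
    congr 1
    exact Subsingleton.elim _ _

theorem holds_chi [Countable L.Symbols] (a : Fin K → A) {M : Type u} [L.Structure M]
    (x : Fin K → M) (y : M) :
    (chi (L := L) a).Holds M (Fin.snoc (α := fun _ => M) x y) ↔
      ((∀ φ : Univ (L := L) a, ∀ w : Fin 1 → M, φ.1.Realize (Fin.append x w)) →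
        ∃ t : L.Term (Fin K), t.realize x = y) := by
  have h0 : (chi (L := L) a).Holds M (Fin.snoc (α := fun _ => M) x y) ↔
      ∃ i : Univ (L := L) a ⊕ L.Term (Fin K), ∃ w : Fin 1 → M,
        (chiBody a i).Realize (Fin.append (Fin.snoc (α := fun _ => M) x y) w) := Iff.rfl
  rw [h0]
  have h1 : ∀ (φ : Univ (L := L) a) (w : Fin 1 → M),
      (chiBody a (.inl φ)).Realize (Fin.append (Fin.snoc (α := fun _ => M) x y) w) ↔
        ¬ φ.1.Realize (Fin.append x w) := by
    intro φ w
    simp only [chiBody]
    rw [Formula.realize_not, Formula.realize_relabel, append_skip]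
  have h2 : ∀ (t : L.Term (Fin K)) (w : Fin 1 → M),
      (chiBody (A := A) a (.inr t)).Realize (Fin.append (Fin.snoc (α := fun _ => M) x y) w) ↔
        t.realize x = y := by
    intro t w
    simp only [chiBody]
    rw [Formula.realize_equal, Term.realize_relabel, Term.realize_var, append_mid]
    have : (Fin.append (Fin.snoc (α := fun _ => M) x y) w ∘ fun i : Fin K =>
        i.castSucc.castSucc) = x := by
      funext i
      exact append_castSucc x y w i
    rw [this]
    exact eq_comm
  constructor
  · rintro ⟨i, w, h⟩ hall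
    rcases i with φ | t
    · rw [h1] at h
      exact absurd (hall φ w) h
    · exact ⟨t, (h2 t w).1 h⟩
  · intro h
    by_cases hall : ∀ φ : Univ (L := L) a, ∀ w : Fin 1 → M, φ.1.Realize (Fin.append x w)
    · obtain ⟨t, ht⟩ := h hall
      exact ⟨.inr t, fun _ => y, (h2 t _).2 ht⟩
    · push Not at hall
      obtain ⟨φ, w, hw⟩ := hall
      exact ⟨.inl φ, w, (h1 φ w).2 hw⟩

/-- The tuple `x` satisfies in `M` the universal formulas true of `a`. -/
def Rich (L : FirstOrder.Language.{0, 0}) [L.Structure A] (a : Fin K → A) {M : Type u}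
    [L.Structure M] (x : Fin K → M) : Prop :=
  ∀ φ : Univ (L := L) a, ∀ w : Fin 1 → M, φ.1.Realize (Fin.append x w)

/-- weaken a formula by an unused last variable -/
theorem append_comp_castSucc {M : Type u} (x : Fin K → M) (w : Fin 1 → M) :
    (Fin.append x w ∘ fun i : Fin K => i.castSucc) = x := by
  funext i
  exact Fin.append_left x w i

/-- A quantifier-free formula holds of `a` iff it holds of a rich tuple. -/
theorem Rich.qf_iff {a : Fin K → A} {M : Type u} [L.Structure M] {x : Fin K → M}
    (hx : Rich L a x) (y : M) (φ : L.Formula (Fin K)) (h : BoundedFormula.IsQF φ) :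
    φ.Realize a ↔ φ.Realize x := by
  have key : ∀ φ : L.Formula (Fin K), BoundedFormula.IsQF φ → φ.Realize a → φ.Realize x := by
    intro φ h ha
    have h1 := hx ⟨Formula.relabel (fun i : Fin K => i.castSucc) φ, h.relabel _, fun w => by
      rw [Formula.realize_relabel, append_comp_castSucc]; exact ha⟩ (fun _ => y)
    rw [Formula.realize_relabel, append_comp_castSucc] at h1
    exact h1
  refine ⟨key φ h, fun hφ => ?_⟩
  by_contra hn
  have h2 := key φ.not h.not (by rw [Formula.realize_not]; exact hn)
  rw [Formula.realize_not] at h2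
  exact h2 hφ

theorem Rich.term_iff {a : Fin K → A} {M : Type u} [L.Structure M] {x : Fin K → M}
    (hx : Rich L a x) (y : M) (s t : L.Term (Fin K)) :
    s.realize a = t.realize a ↔ s.realize x = t.realize x := by
  have h := hx.qf_iff y (Term.equal s t) (BoundedFormula.IsQF.of_isAtomic (.equal _ _))
  rw [Formula.realize_equal, Formula.realize_equal] at h
  exact h

/-- If a rich tuple generates `M` then `M` is isomorphic to the structure `A` generated by `a`. -/
theorem Rich.equiv {a : Fin K → A} (ha : ∀ y : A, ∃ t : L.Term (Fin K), t.realize a = y)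
    {M : Type u} [L.Structure M] {x : Fin K → M} (hx : Rich L a x) (y : M)
    (hxg : ∀ y : M, ∃ t : L.Term (Fin K), t.realize x = y) : Nonempty (M ≃[L] A) := by
  choose s hs using hxg
  choose t ht using ha
  have hst : ∀ (r : L.Term (Fin K)), (s (r.realize x)).realize a = r.realize a := by
    intro r
    rw [hx.term_iff y, hs]
  have hts : ∀ (r : L.Term (Fin K)), (t (r.realize a)).realize x = r.realize x := by
    intro r
    rw [← hx.term_iff y, ht]
  refine ⟨⟨⟨fun m => (s m).realize a, fun b => (t b).realize x, ?_, ?_⟩, ?_, ?_⟩⟩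
  · intro m
    show (t ((s m).realize a)).realize x = m
    rw [hts, hs]
  · intro b
    show (s ((t b).realize x)).realize a = b
    rw [hst, ht]
  · intro n f v
    show (s (Structure.funMap f v)).realize a = Structure.funMap f fun i => (s (v i)).realize a
    have h1 := hst (Term.func f fun i => s (v i))
    simp only [Term.realize_func] at h1
    rw [← h1]
    congr 2
    congr 1
    funext i
    exact (hs _).symm
  · intro n R v
    show Structure.RelMap R (fun i => (s (v i)).realize a) ↔ Structure.RelMap R v
    have h1 := hx.qf_iff y (R.formula fun i => s (v i))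
      (BoundedFormula.IsQF.of_isAtomic (.rel _ _))
    rw [Formula.realize_rel, Formula.realize_rel] at h1
    rw [h1]
    simp only [hs]

/-- The Scott sentence. -/
def scott [Countable L.Symbols] {N : ℕ} (a : Fin (0 + N) → A) : Inf L 0 :=
  .conj Bool fun b => bif b then .disj Unit (fun _ => .ex N (psi (L := L) a))
    else .conj Unit (fun _ => .all (N + 1) (chi (L := L) a))

theorem isDSigma_scott [Countable L.Symbols] {N : ℕ} (a : Fin (0 + N) → A) :
    IsDSigma 2 (scott (L := L) a) := by
  refine ⟨_, _, ?_, ?_, rfl⟩
  · exact .disj two_pos Unit (fun _ => N) (fun _ => 1) (fun _ => one_lt_two)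
      (fun _ => psi (L := L) a) (fun _ => isPi_psi a)
  · exact .conj two_pos Unit (fun _ => N + 1) (fun _ => 1) (fun _ => one_lt_two)
      (fun _ => chi (L := L) a) (fun _ => isSigma_chi a)


theorem holds_scott [Countable L.Symbols] {N : ℕ} (a : Fin (0 + N) → A) {M : Type u}
    [L.Structure M] :
    (scott (L := L) a).Holds M (fun i => i.elim0) ↔
      (∃ x : Fin (0 + N) → M, Rich L a x) ∧
        ∀ (x : Fin (0 + N) → M) (y : M), Rich L a x →
          ∃ t : L.Term (Fin (0 + N)), t.realize x = y := by
  have h0 : (scott (L := L) a).Holds M (fun i => i.elim0) ↔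
      ∀ b : Bool, (bif b then Inf.disj Unit (fun _ => .ex N (psi (L := L) a))
        else Inf.conj Unit (fun _ => .all (N + 1) (chi (L := L) a))).Holds M
          (fun i => i.elim0) := Iff.rfl
  rw [h0, Bool.forall_bool, and_comm]
  refine and_congr ?_ ?_
  · have h1 : (bif true then Inf.disj Unit (fun _ => .ex N (psi (L := L) a))
        else Inf.conj Unit (fun _ => .all (N + 1) (chi (L := L) a))).Holds M
          (fun i => i.elim0) ↔ ∃ _ : Unit, ∃ w : Fin N → M,
            Rich L a (Fin.append (m := 0) (n := N) (fun i : Fin 0 => (i.elim0 : M)) w) := Iff.rfl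
    rw [h1]
    constructor
    · rintro ⟨-, w, hw⟩
      exact ⟨_, hw⟩
    · rintro ⟨x, hx⟩
      refine ⟨(), fun i => x (Fin.natAdd 0 i), ?_⟩
      have : Fin.append (fun i : Fin 0 => (i.elim0 : M)) (fun i => x (Fin.natAdd 0 i)) = x := by
        funext i
        refine Fin.addCases (fun i => i.elim0) (fun i => ?_) i
        rw [Fin.append_right]
      rw [this]
      exact hx
  · have h2 : (bif false then Inf.disj Unit (fun _ => .ex N (psi (L := L) a))
        else Inf.conj Unit (fun _ => .all (N + 1) (chi (L := L) a))).Holds M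
          (fun i => i.elim0) ↔ ∀ _ : Unit, ∀ w : Fin (N + 1) → M,
            (chi (L := L) a).Holds M
              (Fin.append (m := 0) (n := N + 1) (fun i : Fin 0 => (i.elim0 : M)) w) := Iff.rfl
    rw [h2]
    constructor
    · intro h x y hx
      have h3 := h () (fun i => (Fin.snoc (α := fun _ => M) x y : Fin (0 + N + 1) → M)
        (Fin.natAdd 0 i))
      have : Fin.append (m := 0) (n := N + 1) (fun i : Fin 0 => (i.elim0 : M))
          (fun i => (Fin.snoc (α := fun _ => M) x y : Fin (0 + N + 1) → M) (Fin.natAdd 0 i)) =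
          (Fin.snoc (α := fun _ => M) x y : Fin (0 + N + 1) → M) := by
        funext i
        refine Fin.addCases (m := 0) (n := N + 1) (fun i => i.elim0) (fun i => ?_) i
        rw [Fin.append_right]
      rw [this] at h3
      exact (holds_chi a x y).1 h3 hx
    · intro h _ w
      have h4 : ∀ v : Fin (0 + N + 1) → M, (chi (L := L) a).Holds M v := by
        intro v
        have h5 := (holds_chi a (fun i => v i.castSucc) (v (Fin.last _))).2 (h _ _)
        have : (Fin.snoc (α := fun _ => M) (fun i => v i.castSucc) (v (Fin.last _)) :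
            Fin (0 + N + 1) → M) = v := Fin.snoc_init_self v
        rwa [this] at h5
      exact h4 _

/-- If every rich tuple of `A` generates `A`, then `A` has a d-`Sigma_2` Scott sentence. -/
theorem exists_scott [Countable L.Symbols] {N : ℕ} (a : Fin (0 + N) → A)
    (ha : ∀ y : A, ∃ t : L.Term (Fin (0 + N)), t.realize a = y)
    (h : ∀ (x : Fin (0 + N) → A), Rich L a x →
      ∀ y : A, ∃ t : L.Term (Fin (0 + N)), t.realize x = y) [Nonempty A] :
    ∃ φ : Inf L 0, IsDSigma 2 φ ∧ IsScottSentence A φ := by
  refine ⟨scott a, isDSigma_scott a, ?_⟩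
  intro M _ _
  have hA : (scott (L := L) a).Holds A (fun i => i.elim0) := by
    rw [holds_scott]
    exact ⟨⟨a, fun φ => φ.2.2⟩, fun x y hx => h x hx y⟩
  constructor
  · intro hM
    rw [holds_scott] at hM
    obtain ⟨⟨x, hx⟩, hM2⟩ := hM
    -- `M` is nonempty: a constant term of `a` or a coordinate
    have hMne : Nonempty M := by
      obtain ⟨y⟩ := ‹Nonempty A›
      obtain ⟨t, -⟩ := ha y
      exact ⟨t.realize x⟩
    obtain ⟨y⟩ := hMne
    exact hx.equiv ha y (fun y => hM2 x y hx)
  · rintro ⟨e⟩
    rw [holds_iff_of_equiv e]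
    have : (e ∘ fun i : Fin 0 => (i.elim0 : M)) = fun i => i.elim0 := by
      funext i
      exact i.elim0
    rw [this]
    exact hA

end general

section domain

open Polynomial

variable {A : Type u} [CommRing A] [IsDomain A] [FirstOrder.Ring.CompatibleRing A]

omit [FirstOrder.Ring.CompatibleRing A] in
/-- An injective endomorphism of a finitely generated domain has a range over which the domain is
algebraic. -/
theorem exists_root (hA : Algebra.FiniteType ℤ A) (f : A →+* A) (hf : Function.Injective f)
    (y : A) : ∃ q : A[X], q ≠ 0 ∧ (q.map f).eval y = 0 := by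
  let R : Subring A := (algebraMap ℤ A).range
  have hfin : Algebra.FiniteType R A := by
    have : IsScalarTower ℤ R A := IsScalarTower.of_algebraMap_eq (fun n => by simp)
    exact Algebra.FiniteType.of_restrictScalars_finiteType ℤ R A
  have hfR : ∀ r : R, f (algebraMap R A r) = algebraMap R A r := by
    rintro ⟨r, n, rfl⟩
    show f (algebraMap ℤ A n) = algebraMap ℤ A n
    simp
  let g : A →ₐ[R] A := { f with commutes' := hfR }
  have hg : Function.Injective g := hf
  obtain ⟨s, hs⟩ := exists_isTranscendenceBasis R A
  have htr : Algebra.trdeg R A < Cardinal.aleph0 := trdeg_lt_aleph0_of_finiteType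
  have hcard := hs.cardinalMk_eq_trdeg
  have hsfin : Finite s := by
    rw [← Cardinal.lt_aleph0_iff_finite, hcard]
    exact htr
  have hind : AlgebraicIndependent R (g ∘ ((↑) : s → A)) := hs.1.map' hg
  have hbas : IsTranscendenceBasis R (g ∘ ((↑) : s → A)) :=
    hind.isTranscendenceBasis_of_trdeg_le_of_finite hcard.ge
  have halg := hbas.isAlgebraic
  obtain ⟨p, hp0, hp⟩ := halg.1 y
  have hrange : ∀ z : Algebra.adjoin R (Set.range (g ∘ ((↑) : s → A))), ∃ b : A, f b = z := by
    rintro ⟨z, hz⟩
    have : Algebra.adjoin R (Set.range (g ∘ ((↑) : s → A))) ≤ g.range := by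
      rw [Algebra.adjoin_le_iff]
      rintro _ ⟨i, rfl⟩
      exact ⟨i, rfl⟩
    obtain ⟨b, hb⟩ := this hz
    exact ⟨b, hb⟩
  -- lift the coefficients of `p`
  have hlift : p.map (algebraMap _ A) ∈ Polynomial.lifts f := by
    rw [Polynomial.lifts_iff_coeff_lifts]
    intro n
    rw [Polynomial.coeff_map]
    obtain ⟨b, hb⟩ := hrange (p.coeff n)
    exact ⟨b, hb⟩
  obtain ⟨q, hq⟩ := hlift
  have hq' : q.map f = p.map (algebraMap _ A) := hq
  refine ⟨q, ?_, ?_⟩
  · rintro rfl
    rw [Polynomial.map_zero] at hq'
    apply hp0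
    exact (Polynomial.map_eq_zero_iff (FaithfulSMul.algebraMap_injective _ A)).1 hq'.symm
  · rw [hq', Polynomial.eval_map_algebraMap]
    exact hp

omit [IsDomain A] in
/-- Polynomials over `A` are given by terms in the generators. -/
theorem exists_term {K : ℕ} {a x : Fin K → A} (f : A →+* A)
    (hf : ∀ b : A, ∃ t : Language.ring.Term (Fin K), t.realize a = b ∧ t.realize x = f b)
    (q : A[X]) : ∃ T : Language.ring.Term (Fin (K + 1)),
      (∀ w : Fin 1 → A, T.realize (Fin.append a w) = q.eval (w 0)) ∧
      (∀ w : Fin 1 → A, T.realize (Fin.append x w) = (q.map f).eval (w 0)) := by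
  induction q using Polynomial.induction_on with
  | C b =>
    obtain ⟨t, h1, h2⟩ := hf b
    refine ⟨t.relabel fun i => i.castSucc, fun w => ?_, fun w => ?_⟩
    · rw [Term.realize_relabel, append_comp_castSucc, h1]; simp
    · rw [Term.realize_relabel, append_comp_castSucc, h2]; simp
  | add p q hp hq =>
    obtain ⟨t, h1, h2⟩ := hp
    obtain ⟨s, h3, h4⟩ := hq
    refine ⟨t + s, fun w => ?_, fun w => ?_⟩
    · rw [FirstOrder.Ring.realize_add, h1, h3]; simp
    · rw [FirstOrder.Ring.realize_add, h2, h4]; simp
  | monomial n b hb =>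
    obtain ⟨t, h1, h2⟩ := hb
    refine ⟨t * Term.var (Fin.last K), fun w => ?_, fun w => ?_⟩
    · rw [FirstOrder.Ring.realize_mul, h1, Term.realize_var, append_last]
      simp [pow_succ, mul_assoc]
    · rw [FirstOrder.Ring.realize_mul, h2, Term.realize_var, append_last]
      simp [pow_succ, mul_assoc]

/-- Every rich tuple of a finitely generated domain generates it. -/
theorem rich_generates {K : ℕ} {a : Fin K → A}
    (ha : ∀ y : A, ∃ t : Language.ring.Term (Fin K), t.realize a = y)
    {x : Fin K → A} (hx : Rich Language.ring a x) (y : A) :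
    ∃ t : Language.ring.Term (Fin K), t.realize x = y := by
  choose t ht using ha
  have hts : ∀ r : Language.ring.Term (Fin K), (t (r.realize a)).realize x = r.realize x := by
    intro r
    rw [← hx.term_iff y, ht]
  -- the endomorphism
  let f : A →+* A :=
    { toFun := fun b => (t b).realize x
      map_one' := by
        have h := hts 1
        rwa [FirstOrder.Ring.realize_one, FirstOrder.Ring.realize_one] at h
      map_zero' := by
        have h := hts 0
        rwa [FirstOrder.Ring.realize_zero, FirstOrder.Ring.realize_zero] at h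
      map_add' := by
        intro b c
        have h := hts (t b + t c)
        rwa [FirstOrder.Ring.realize_add, FirstOrder.Ring.realize_add, ht, ht] at h
      map_mul' := by
        intro b c
        have h := hts (t b * t c)
        rwa [FirstOrder.Ring.realize_mul, FirstOrder.Ring.realize_mul, ht, ht] at h }
  have hf : ∀ b : A, ∃ s : Language.ring.Term (Fin K), s.realize a = b ∧ s.realize x = f b :=
    fun b => ⟨t b, ht b, rfl⟩
  have hinj : Function.Injective f := by
    intro b c hbc
    have h := (hx.term_iff y (t b) (t c)).2 hbc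
    rwa [ht, ht] at h
  -- `A` is of finite type
  have hA : Algebra.FiniteType ℤ A := by
    classical
    refine ⟨⟨Finset.univ.image a, ?_⟩⟩
    rw [eq_top_iff]
    rintro b -
    rw [← ht b]
    generalize t b = r
    induction r with
    | var i => exact Algebra.subset_adjoin (by simp)
    | @func n g ts ih =>
      simp only [Term.realize_func]
      cases g with
      | add => rw [FirstOrder.Ring.CompatibleRing.funMap_add]; exact add_mem (ih 0) (ih 1)
      | mul => rw [FirstOrder.Ring.CompatibleRing.funMap_mul]; exact mul_mem (ih 0) (ih 1)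
      | neg => rw [FirstOrder.Ring.CompatibleRing.funMap_neg]; exact neg_mem (ih 0)
      | zero => rw [FirstOrder.Ring.CompatibleRing.funMap_zero]; exact zero_mem _
      | one => rw [FirstOrder.Ring.CompatibleRing.funMap_one]; exact one_mem _
  -- a polynomial of least degree
  suffices h : ∀ n : ℕ, ∀ q : A[X], q.natDegree = n → q ≠ 0 → (q.map f).eval y = 0 →
      ∃ c, f c = y by
    obtain ⟨q, hq0, hq⟩ := exists_root hA f hinj y
    obtain ⟨c, hc⟩ := h _ q rfl hq0 hq
    obtain ⟨s, -, hs⟩ := hf c
    exact ⟨s, hs.trans hc⟩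
  intro n
  induction n using Nat.strong_induction_on with
  | _ n ih =>
    intro q hqn hq0 hq
    obtain ⟨T, hT1, hT2⟩ := exists_term f hf q
    have hroot : ∃ c : A, q.eval c = 0 := by
      by_contra hno
      push Not at hno
      let φ : Language.ring.Formula (Fin (K + 1)) := (Term.equal T 0).not
      have h1 := hx ⟨φ, (BoundedFormula.IsQF.of_isAtomic (.equal _ _)).not, fun w => by
        rw [Formula.realize_not, Formula.realize_equal, hT1, FirstOrder.Ring.realize_zero]
        exact hno _⟩ (fun _ => y)
      rw [Formula.realize_not, Formula.realize_equal, hT2, FirstOrder.Ring.realize_zero] at h1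
      exact h1 hq
    obtain ⟨c, hc⟩ := hroot
    obtain ⟨q', rfl⟩ := Polynomial.dvd_iff_isRoot.2 hc
    have hq'0 : q' ≠ 0 := right_ne_zero_of_mul hq0
    have hdeg : q'.natDegree < n := by
      rw [Polynomial.natDegree_mul (Polynomial.X_sub_C_ne_zero c) hq'0,
        Polynomial.natDegree_X_sub_C] at hqn
      omega
    rw [Polynomial.map_mul, Polynomial.eval_mul] at hq
    rcases mul_eq_zero.1 hq with h | h
    · refine ⟨c, ?_⟩
      simp only [Polynomial.map_sub, Polynomial.map_X, Polynomial.map_C, Polynomial.eval_sub,
        Polynomial.eval_X, Polynomial.eval_C] at h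
      exact (sub_eq_zero.1 h).symm
    · exact ih _ hdeg q' rfl hq'0 h

end domain

/-- **Every finitely generated integral domain has a d-`Sigma_2` Scott sentence.** -/
theorem result (A : Type u) [CommRing A] [IsDomain A] [FirstOrder.Ring.CompatibleRing A]
    (hA : Structure.FG Language.ring A) :
    ∃ φ : Inf Language.ring 0, IsDSigma 2 φ ∧ IsScottSentence A φ := by
  obtain ⟨N, a, ha⟩ := Substructure.fg_iff_exists_fin_generating_family.1 hA.out
  have hex : ∃ a' : Fin (0 + N) → A, ∀ y : A, ∃ t : Language.ring.Term (Fin (0 + N)),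
      t.realize a' = y := by
    refine ⟨fun i => a (Fin.cast (zero_add N) i), fun y => ?_⟩
    have hy : y ∈ Substructure.closure Language.ring (Set.range a) := by
      rw [ha]; exact Substructure.mem_top y
    obtain ⟨t, ht⟩ := Substructure.mem_closure_iff_exists_term.1 hy
    have hsurj : ∀ z : Set.range a, ∃ i : Fin (0 + N), a (Fin.cast (zero_add N) i) = z := by
      rintro ⟨_, i, rfl⟩
      exact ⟨Fin.cast (zero_add N).symm i, rfl⟩
    choose k hk using hsurj
    refine ⟨t.relabel k, ?_⟩
    rw [Term.realize_relabel, ← ht]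
    congr 1
    funext z
    exact hk z
  obtain ⟨a', ha'⟩ := hex
  exact exists_scott a' ha' fun x hx y => rich_generates ha' hx y

end Pool.Agent.Results.MP_93e0ce_lc.DomainScottSentence
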